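import Pool.Agent.H45Z.TDProof

set_option autoImplicit false

namespace Pool.Agent.Results.MP_df5a7a_co.ACounterFamily

open Pool.Agent.H45Z.TD

/-- For every `k ≥ 1` there is a connected graph on `n = (2k+1)^2` vertices with minimum degree
at least 2 and `td G > (n - 2 sqrt n) / 4`. -/
theorem result (k : ℕ) (hk : 1 ≤ k) :
    ∃ (V : Type) (_ : Fintype V) (G : SimpleGraph V),
      Fintype.card V = (2 * k + 1) ^ 2 ∧ G.Connected ∧ (∀ v, 2 ≤ (G.neighborSet v).ncard) ∧
      ((Fintype.card V : ℝ) - 2 * Real.sqrt (Fintype.card V)) / 4 < td G :=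
  main k hk

end Pool.Agent.Results.MP_df5a7a_co.ACounterFamily
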